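import Pool.Agent.RTF.Stmts

/-!
# Squad RTF, module KR
-/

namespace Pool.Agent.RTF.H26

open Pool.Agent.Glue Pool.Agent.FB Pool.Agent.CD Pool.Agent.RTF

variable {G : Type} [Group G]

theorem finOn_of_finite (F : SF G) (B : Subgroup G) (u : F.U)
    (h : (Function.support (F.co u)).Finite) : FinOn F B u := fun _ =>
  h.subset fun _ hx => hx.1

theorem finOn_zero (F : SF G) (B : Subgroup G) : FinOn F B 0 := by
  apply finOn_of_finite
  rw [map_zero]
  simp

theorem support_sg (F : SF G) (g : G) : (Function.support (F.co (F.sg g))).Finite := by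
  refine (Set.finite_singleton g).subset fun x hx => ?_
  rw [Function.mem_support, F.co_sg] at hx
  by_contra h
  exact hx (if_neg h)

theorem finOn_sg (F : SF G) (B : Subgroup G) (g : G) : FinOn F B (F.sg g) :=
  finOn_of_finite F B _ (support_sg F g)

theorem finOn_add (F : SF G) (B : Subgroup G) {u v : F.U} (hu : FinOn F B u)
    (hv : FinOn F B v) : FinOn F B (u + v) := fun g => by
  refine ((hu g).union (hv g)).subset fun x hx => ?_
  obtain ⟨h1, h2⟩ := hx
  rw [map_add] at h1
  by_cases h3 : F.co u x = 0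
  · right
    refine ⟨fun h4 => h1 ?_, h2⟩
    rw [Pi.add_apply, h3, h4, add_zero]
  · exact Or.inl ⟨h3, h2⟩

theorem finOn_neg (F : SF G) (B : Subgroup G) {u : F.U} (hu : FinOn F B u) :
    FinOn F B (-u) := fun g => by
  refine (hu g).subset fun x hx => ?_
  obtain ⟨h1, h2⟩ := hx
  refine ⟨fun h4 => h1 ?_, h2⟩
  rw [map_neg, Pi.neg_apply, h4, neg_zero]

/-- The subfield of the elements that are finite on cosets of `M j` for large `j`. -/
def krField (hM : MulfStmt) (hI : InvfStmt) (T : CF G) (F : SF G) (ho : F.o = T.ord)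
    (D : KD G F) : Subfield D.K where
  carrier := {x | ∃ j, ∀ i, j ≤ i → FinOn F (T.M i) (D.p x)}
  zero_mem' := ⟨0, fun i _ => by
    rw [map_zero]
    exact finOn_zero F _⟩
  one_mem' := ⟨0, fun i _ => by
    rw [map_one, ← map_one F.sg]
    exact finOn_sg F _ 1⟩
  add_mem' := by
    rintro x y ⟨j, hj⟩ ⟨l, hl⟩
    refine ⟨max j l, fun i hi => ?_⟩
    rw [map_add]
    exact finOn_add F _ (hj i (le_trans (le_max_left _ _) hi))
      (hl i (le_trans (le_max_right _ _) hi))
  neg_mem' := by
    rintro x ⟨j, hj⟩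
    refine ⟨j, fun i hi => ?_⟩
    rw [map_neg]
    exact finOn_neg F _ (hj i hi)
  mul_mem' := by
    rintro x y ⟨j, hj⟩ ⟨l, hl⟩
    refine ⟨max j l, fun i hi => ?_⟩
    rw [map_mul]
    exact hM G F (T.M i) (T.normal i) (by rw [ho]; exact T.conv i) _ _
      (hj i (le_trans (le_max_left _ _) hi)) (hl i (le_trans (le_max_right _ _) hi))
  inv_mem' := by
    rintro x ⟨j, hj⟩
    obtain ⟨l, -, hl⟩ := hI G T F (Or.inl ho) j (D.p x) (hj j le_rfl)
    refine ⟨l, fun i hi => ?_⟩
    rw [map_inv₀]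
    exact hl i hi

theorem kr (hM : MulfStmt) (hI : InvfStmt) : KrStmt := by
  intro G _ T F ho D x
  have h : Subfield.closure (Set.range D.s) ≤ krField hM hI T F ho D := by
    rw [Subfield.closure_le]
    rintro y ⟨g, rfl⟩
    refine ⟨0, fun i _ => ?_⟩
    rw [D.ps]
    exact finOn_sg F _ g
  rw [D.gen] at h
  exact h (Subfield.mem_top x)

end Pool.Agent.RTF.H26
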