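import Pool.Agent.Helper26_RTF.Kr

/-!
# Squad RTF, module ORK
-/

namespace Pool.Agent.RTF.H26

open Pool.Agent.Glue Pool.Agent.FB Pool.Agent.CD Pool.Agent.RTF

variable {G : Type} [Group G]

theorem two_cases (r : F2) : r = 0 ∨ r = 1 := by
  revert r
  decide

theorem cs_zero (F : SF G) (B : Subgroup G) (g : G) : cs F B 0 g = 0 := by
  unfold cs
  rw [map_zero]
  simp

theorem cs_add (F : SF G) (B : Subgroup G) {u v : F.U} (hu : FinOn F B u) (hv : FinOn F B v)
    (g : G) : cs F B (u + v) g = cs F B u g + cs F B v g := by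
  unfold cs
  rw [map_add]
  simp only [Pi.add_apply]
  refine finsum_mem_add_distrib' ?_ ?_
  · exact (hu g).subset fun x hx => ⟨hx.2, hx.1⟩
  · exact (hv g).subset fun x hx => ⟨hx.2, hx.1⟩

theorem cs_smul (F : SF G) (B : Subgroup G) (r : F2) (u : F.U) (g : G) :
    cs F B (r • u) g = r * cs F B u g := by
  rcases two_cases r with rfl | rfl
  · rw [zero_smul, cs_zero, zero_mul]
  · rw [one_smul, one_mul]

theorem finOn_smul (F : SF G) (B : Subgroup G) (r : F2) {u : F.U} (hu : FinOn F B u) :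
    FinOn F B (r • u) := by
  rcases two_cases r with rfl | rfl
  · rw [zero_smul]
    exact finOn_zero F B
  · rw [one_smul]
    exact hu

theorem finOn_sum (F : SF G) (B : Subgroup G) {ι : Type} (s : Finset ι) (u : ι → F.U)
    (hu : ∀ i ∈ s, FinOn F B (u i)) : FinOn F B (∑ i ∈ s, u i) := by
  classical
  induction s using Finset.induction_on with
  | empty => exact finOn_zero F B
  | insert a s ha ih =>
    rw [Finset.sum_insert ha]
    exact finOn_add F B (hu a (Finset.mem_insert_self a s))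
      (ih fun i hi => hu i (Finset.mem_insert_of_mem hi))

theorem cs_sum (F : SF G) (B : Subgroup G) {ι : Type} (s : Finset ι) (u : ι → F.U)
    (hu : ∀ i ∈ s, FinOn F B (u i)) (g : G) :
    cs F B (∑ i ∈ s, u i) g = ∑ i ∈ s, cs F B (u i) g := by
  classical
  induction s using Finset.induction_on with
  | empty => exact cs_zero F B g
  | insert a s ha ih =>
    rw [Finset.sum_insert ha, Finset.sum_insert ha,
      cs_add F B (hu a (Finset.mem_insert_self a s))
        (finOn_sum F B s u fun i hi => hu i (Finset.mem_insert_of_mem hi)),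
      ih fun i hi => hu i (Finset.mem_insert_of_mem hi)]

open Classical in
theorem cs_sg (F : SF G) (B : Subgroup G) (h g : G) :
    cs F B (F.sg h) g = if g⁻¹ * h ∈ B then 1 else 0 := by
  unfold cs
  rw [finsum_eq_single _ h]
  · rw [F.co_sg, if_pos rfl, finsum_eq_if]
    by_cases hB : g⁻¹ * h ∈ B
    · rw [if_pos hB, if_pos]
      exact hB
    · rw [if_neg hB, if_neg]
      exact hB
  · intro x hx
    rw [F.co_sg, if_neg hx]
    simp

/-- The finite sum given by a finitely supported function. -/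
noncomputable def gr (F : SF G) (c : G →₀ F2) : F.U := ∑ g ∈ c.support, c g • F.sg g

theorem finOn_gr (F : SF G) (B : Subgroup G) (c : G →₀ F2) : FinOn F B (gr F c) :=
  finOn_sum F B _ _ fun g _ => finOn_smul F B _ (finOn_sg F B g)

theorem exists_gr (F : SF G) {a : F.U} (ha : a ∈ GR F) : ∃ c, a = gr F c := by
  have h : GR F ≤ ((MonoidAlgebra.lift F2 F.U G F.sg).range).toSubring := by
    unfold GR
    rw [Subring.closure_le]
    rintro y ⟨g, rfl⟩
    exact ⟨MonoidAlgebra.of F2 G g, MonoidAlgebra.lift_of _ _⟩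
  obtain ⟨f, hf⟩ := h ha
  refine ⟨f.coeff, ?_⟩
  rw [← hf]
  exact MonoidAlgebra.lift_apply _ _

theorem smul_sg_mem (F : SF G) (r : F2) (g : G) : r • F.sg g ∈ GR F := by
  rcases two_cases r with rfl | rfl
  · rw [zero_smul]
    exact zero_mem _
  · rw [one_smul]
    exact Subring.subset_closure ⟨g, rfl⟩

theorem sg_mul_gr (F : SF G) (b : G) (c : G →₀ F2) :
    F.sg b * gr F c = ∑ e ∈ c.support, c e • F.sg (b * e) := by
  unfold gr
  rw [Finset.mul_sum]
  refine Finset.sum_congr rfl fun e _ => ?_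
  rw [mul_smul_comm, map_mul]

open Classical in
theorem cs_sg_mul_gr (F : SF G) (B : Subgroup G) (b : G) (c : G →₀ F2) (g : G) :
    cs F B (F.sg b * gr F c) g = ∑ e ∈ c.support, c e * (if g⁻¹ * (b * e) ∈ B then 1 else 0) := by
  rw [sg_mul_gr, cs_sum F B _ _ fun e _ => finOn_smul F B _ (finOn_sg F B _)]
  refine Finset.sum_congr rfl fun e _ => ?_
  rw [cs_smul, cs_sg]

theorem finOn_sg_mul_gr (F : SF G) (B : Subgroup G) (b : G) (c : G →₀ F2) :
    FinOn F B (F.sg b * gr F c) := by
  rw [sg_mul_gr]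
  exact finOn_sum F B _ _ fun e _ => finOn_smul F B _ (finOn_sg F B _)

theorem cs_congr (F : SF G) (B : Subgroup G) (u : F.U) {g g' : G} (h : g⁻¹ * g' ∈ B) :
    cs F B u g = cs F B u g' := by
  unfold cs
  have e : {x | g⁻¹ * x ∈ B} = {x | g'⁻¹ * x ∈ B} := by
    ext x
    simp only [Set.mem_ofPred_eq]
    have e1 : g⁻¹ * x = (g⁻¹ * g') * (g'⁻¹ * x) := by group
    rw [e1]
    exact Subgroup.mul_mem_cancel_left _ h
  rw [e]

/-- The linear combination of the group elements of `B0`. -/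
noncomputable def lc (F : SF G) (B0 : Finset G) (x : B0 → F2) : F.U :=
  ∑ b : B0, x b • F.sg (b : G)

theorem lc_mem (F : SF G) (B0 : Finset G) (x : B0 → F2) : lc F B0 x ∈ GR F :=
  Subring.sum_mem _ fun b _ => smul_sg_mem F _ _

theorem finOn_lc (F : SF G) (B : Subgroup G) (B0 : Finset G) (x : B0 → F2) :
    FinOn F B (lc F B0 x) :=
  finOn_sum F B _ _ fun b _ => finOn_smul F B _ (finOn_sg F B _)

open Classical in
theorem lc_zero_of_cz (F : SF G) (B : Subgroup G) (B0 : Finset G)
    (hB : ∀ b ∈ B0, ∀ b' ∈ B0, b⁻¹ * b' ∈ B → b = b') (x : B0 → F2)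
    (h : CZ F B (lc F B0 x)) : x = 0 := by
  funext b
  have h1 := h (b : G)
  unfold lc at h1
  rw [cs_sum F B _ _ fun b _ => finOn_smul F B _ (finOn_sg F B _)] at h1
  rw [Finset.sum_eq_single b] at h1
  · rw [cs_smul, cs_sg, if_pos (by simp), mul_one] at h1
    exact h1
  · intro b' _ hb'
    rw [cs_smul, cs_sg, if_neg, mul_zero]
    intro h2
    exact hb' (Subtype.ext (hB b b.2 b' b'.2 h2).symm)
  · intro h2
    exact absurd (Finset.mem_univ b) h2

theorem lc_mul (F : SF G) (B0 : Finset G) (x : B0 → F2) (a : F.U) :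
    lc F B0 x * a = ∑ b : B0, x b • (F.sg (b : G) * a) := by
  unfold lc
  rw [Finset.sum_mul]
  refine Finset.sum_congr rfl fun b _ => ?_
  rw [smul_mul_assoc]

theorem cs_lc_mul (F : SF G) (B : Subgroup G) (B0 : Finset G) (x : B0 → F2) (c : G →₀ F2)
    (g : G) : cs F B (lc F B0 x * gr F c) g = ∑ b : B0, x b * cs F B (F.sg (b : G) * gr F c) g := by
  rw [lc_mul, cs_sum F B _ _ fun b _ => finOn_smul F B _ (finOn_sg_mul_gr F B _ _)]
  refine Finset.sum_congr rfl fun b _ => ?_
  rw [cs_smul]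

theorem finOn_lc_mul (F : SF G) (B : Subgroup G) (B0 : Finset G) (x : B0 → F2) (c : G →₀ F2) :
    FinOn F B (lc F B0 x * gr F c) := by
  rw [lc_mul]
  exact finOn_sum F B _ _ fun b _ => finOn_smul F B _ (finOn_sg_mul_gr F B _ _)

/-- The coset sums on `B1` of the product by `gr c`. -/
noncomputable def csMap (F : SF G) (B : Subgroup G) (B0 B1 : Finset G) (c : G →₀ F2) :
    (B0 → F2) →ₗ[F2] (B1 → F2) where
  toFun x := fun g => ∑ b : B0, x b * cs F B (F.sg (b : G) * gr F c) (g : G)
  map_add' x y := by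
    funext g
    simp only [Pi.add_apply, add_mul, Finset.sum_add_distrib]
  map_smul' r x := by
    funext g
    simp only [Pi.smul_apply, smul_eq_mul, RingHom.id_apply, Finset.mul_sum, mul_assoc]

theorem neg_eq (F : SF G) (u v : F.U) : u - v = u + v := CharTwo.sub_eq_add u v

theorem ork (hF : FolStmt) (hD : CsdStmt) : OrkStmt := by
  classical
  intro G _ T F ho j a ha a' ha' hca hca'
  obtain ⟨c, rfl⟩ := exists_gr F ha
  obtain ⟨c', rfl⟩ := exists_gr F ha'
  obtain ⟨B, B0, K1, hne, h01, hcard, htile, hinj, -, -, -, -⟩ :=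
    hF G T j (c.support ∪ c'.support) (1 / 3) (by norm_num)
  have hconv : F.o.Conv (T.M j) := by
    rcases ho with h | h
    · rw [h]
      exact T.conv j
    · rw [h]
      exact T.conv_rev j
  have hlt : B.card < 2 * B0.card := by
    have h1 : (0 : ℝ) < B.card := by
      exact_mod_cast hne.card_pos
    have h2 : (B.card : ℝ) < 2 * B0.card := by linarith
    exact_mod_cast h2
  have hinj0 : ∀ b ∈ B0, ∀ b' ∈ B0, b⁻¹ * b' ∈ T.M j → b = b' := fun b hb b' hb' h =>
    hinj b (h01 hb) b' (h01 hb') h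
  have hker : LinearMap.ker (((csMap F (T.M j) B0 B c).coprod (csMap F (T.M j) B0 B c')) :
      ((B0 → F2) × (B0 → F2)) →ₗ[F2] (B → F2)) ≠ ⊥ := by
    apply LinearMap.ker_ne_bot_of_finrank_lt
    rw [Module.finrank_prod, Module.finrank_fintype_fun_eq_card,
      Module.finrank_fintype_fun_eq_card, Fintype.card_coe, Fintype.card_coe]
    omega
  obtain ⟨z, hz, hz0⟩ := Submodule.exists_mem_ne_zero_of_ne_bot hker
  obtain ⟨x, y⟩ := z
  rw [LinearMap.mem_ker, LinearMap.coprod_apply] at hz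
  have hCZ : CZ F (T.M j) (lc F B0 x * gr F c - lc F B0 y * gr F c') := by
    intro g
    rw [neg_eq, cs_add F _ (finOn_lc_mul F _ _ _ _) (finOn_lc_mul F _ _ _ _)]
    by_cases hg : ∃ b' ∈ B, g⁻¹ * b' ∈ T.M j
    · obtain ⟨b', hb', hgb⟩ := hg
      rw [cs_congr F _ _ hgb, cs_congr F _ (lc F B0 y * gr F c') hgb, cs_lc_mul, cs_lc_mul]
      exact congrFun hz ⟨b', hb'⟩
    · push Not at hg
      have key : ∀ (d : G →₀ F2), d.support ⊆ c.support ∪ c'.support → ∀ b ∈ B0,
          cs F (T.M j) (F.sg b * gr F d) g = 0 := by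
        intro d hd b hb
        rw [cs_sg_mul_gr]
        refine Finset.sum_eq_zero fun e he => ?_
        rw [if_neg, mul_zero]
        intro h1
        obtain ⟨b', hb', h2⟩ := htile b hb e (hd he)
        refine hg b' hb' ?_
        have e1 : g⁻¹ * b' = (g⁻¹ * (b * e)) * (b'⁻¹ * (b * e))⁻¹ := by group
        rw [e1]
        exact (T.M j).mul_mem h1 ((T.M j).inv_mem h2)
      rw [cs_lc_mul, cs_lc_mul, Finset.sum_eq_zero, Finset.sum_eq_zero, add_zero]
      · intro b _
        rw [key c' Finset.subset_union_right b b.2, mul_zero]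
      · intro b _
        rw [key c Finset.subset_union_left b b.2, mul_zero]
  refine ⟨lc F B0 x, lc_mem F B0 x, lc F B0 y, lc_mem F B0 y, hCZ, ?_⟩
  intro hx
  have hx0 : x = 0 := by
    apply lc_zero_of_cz F (T.M j) B0 hinj0
    by_contra h
    exact hD G F (T.M j) (T.normal j) hconv _ _ (finOn_lc F _ _ _) (finOn_gr F _ _) h hca hx
  have hy : CZ F (T.M j) (lc F B0 y * gr F c') := by
    intro g
    have h1 := hCZ g
    rw [neg_eq, cs_add F _ (finOn_lc_mul F _ _ _ _) (finOn_lc_mul F _ _ _ _), hx g, zero_add] at h1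
    exact h1
  have hy0 : y = 0 := by
    apply lc_zero_of_cz F (T.M j) B0 hinj0
    by_contra h
    exact hD G F (T.M j) (T.normal j) hconv _ _ (finOn_lc F _ _ _) (finOn_gr F _ _) h hca' hy
  exact hz0 (Prod.ext hx0 hy0)

end Pool.Agent.RTF.H26
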